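import Pool.Agent.N816.LR.Defs

/-!
Halfspaces of the Cayley tree of a free group (`LRV/ST6`).
-/

set_option autoImplicit false
open Pool.Agent.N816.LR

namespace Pool.Agent.N744.LRV

open FreeGroup

section
variable {B : Type} [DecidableEq B]

/-- the halfspace of all `m` such that the first letter of `n⁻¹ m` is `l` -/
def Y (n : FreeGroup B) (l : B × Bool) : Set (FreeGroup B) :=
  {m | (toWord (n⁻¹ * m)).head? = some l}

/-- the set of elements at which a set and its translate differ -/
def Ed (X : Set (FreeGroup B)) (g : FreeGroup B) : Set (FreeGroup B) :=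
  {m | ¬ (m ∈ X ↔ m * g ∈ X)}

theorem head_mul (w : FreeGroup B) (y : B × Bool) :
    (toWord (w * mk [y])).head? = (toWord w).head? ∨ w = 1 ∨ w = (mk [y])⁻¹ := by
  rcases List.eq_nil_or_concat (toWord w) with h | ⟨L, z, h⟩
  · right; left
    exact toWord_eq_nil_iff.mp h
  · rw [List.concat_eq_append] at h
    have hred : IsReduced (L ++ [z]) := h ▸ isReduced_toWord
    have hw : w = mk (L ++ [z]) := by rw [← h, mk_toWord]
    by_cases hzy : z.1 = y.1 → z.2 = y.2
    · left
      have h2 : IsReduced (L ++ [z] ++ [y]) :=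
        IsReduced.append_overlap hred (by
          show IsReduced (z :: [y])
          rw [isReduced_cons_cons]
          exact ⟨hzy, IsReduced.singleton⟩) (by simp)
      have h3 : toWord (w * mk [y]) = L ++ [z] ++ [y] := by
        rw [hw, mul_mk, toWord_mk, h2.reduce_eq]
      rw [h3, h]
      simp
    · push Not at hzy
      obtain ⟨h1, h2⟩ := hzy
      have hz : mk [z] = (mk [y])⁻¹ := by
        rw [inv_mk]
        congr 1
        simp only [invRev, List.map_cons, List.map_nil, List.reverse_singleton]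
        congr 1
        ext
        · exact h1
        · simp only
          cases hz2 : z.2 <;> cases hy2 : y.2 <;> simp_all
      have hw2 : w * mk [y] = mk L := by
        rw [hw, ← mul_mk, hz]; group
      have hL : IsReduced L := List.IsChain.left_of_append hred
      rcases L with _ | ⟨a, L⟩
      · right; right
        rw [hw]; simpa using hz
      · left
        rw [hw2, toWord_mk, hL.reduce_eq, h]
        simp

theorem Ed_letter (n : FreeGroup B) (l y : B × Bool) : (Ed (Y n l) (mk [y])).Subsingleton := by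
  have hy1 : toWord (mk [y]) = [y] := by rw [toWord_mk]; rfl
  have hy2 : toWord (mk [y])⁻¹ = [(y.1, !y.2)] := by
    rw [toWord_inv, hy1]; simp [invRev]
  have key : ∀ m ∈ Ed (Y n l) (mk [y]), (n⁻¹ * m = 1 ∧ y = l) ∨
      (n⁻¹ * m = (mk [y])⁻¹ ∧ (y.1, !y.2) = l) := by
    intro m hm
    rcases head_mul (n⁻¹ * m) y with h | h | h
    · exfalso
      apply hm
      simp only [Y, Set.mem_ofPred_eq]
      rw [← mul_assoc, h]
    · left
      refine ⟨h, ?_⟩
      by_contra hne
      apply hm
      simp only [Y, Set.mem_ofPred_eq]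
      rw [← mul_assoc, h, one_mul, hy1, toWord_one]
      simp [hne]
    · right
      refine ⟨h, ?_⟩
      by_contra hne
      apply hm
      simp only [Y, Set.mem_ofPred_eq]
      rw [← mul_assoc, h, inv_mul_cancel, hy2, toWord_one]
      simp [hne]
  intro a ha b hb
  have hya : ¬ (y = l ∧ (y.1, !y.2) = l) := by
    rintro ⟨h1, h2⟩
    rw [← h1] at h2
    have := congrArg Prod.snd h2
    simp at this
  rcases key a ha with ⟨h1, h2⟩ | ⟨h1, h2⟩ <;> rcases key b hb with ⟨h3, h4⟩ | ⟨h3, h4⟩
  · exact mul_left_cancel (h1.trans h3.symm)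
  · exact absurd ⟨h2, h4⟩ hya
  · exact absurd ⟨h4, h2⟩ hya
  · exact mul_left_cancel (h1.trans h3.symm)

omit [DecidableEq B] in
theorem Ed_mul_subset (X : Set (FreeGroup B)) (g h : FreeGroup B) :
    Ed X (g * h) ⊆ Ed X g ∪ (fun m => m * g⁻¹) '' Ed X h := by
  intro m hm
  by_cases h1 : m ∈ Ed X g
  · exact Or.inl h1
  · right
    refine ⟨m * g, ?_, by group⟩
    simp only [Ed, Set.mem_ofPred_eq, not_not] at hm h1 ⊢
    rw [mul_assoc]
    rw [h1] at hm
    exact hm

omit [DecidableEq B] in
theorem Ed_compl (X : Set (FreeGroup B)) (g : FreeGroup B) : Ed Xᶜ g = Ed X g := by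
  ext m
  simp only [Ed, Set.mem_ofPred_eq, Set.mem_compl_iff]
  tauto

theorem Ed_list (n : FreeGroup B) (l : B × Bool) (L : List (B × Bool)) :
    (Ed (Y n l) (mk L)).Finite ∧ (Ed (Y n l) (mk L)).ncard ≤ L.length := by
  induction L with
  | nil =>
    have : Ed (Y n l) (mk []) = ∅ := by
      ext m
      simp only [Ed, Set.mem_ofPred_eq, Set.mem_empty_iff_false, iff_false, not_not]
      rw [show (mk [] : FreeGroup B) = 1 from rfl, mul_one]
    rw [this]
    simp
  | cons a L ih =>
    have h1 : (mk (a :: L) : FreeGroup B) = mk [a] * mk L := by rw [mul_mk]; rfl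
    rw [h1]
    have hsub := Ed_mul_subset (Y n l) (mk [a]) (mk L)
    have hs := Ed_letter n l a
    have hfin : (Ed (Y n l) (mk [a])).Finite := hs.finite
    have hfin2 : ((fun m => m * (mk [a])⁻¹) '' Ed (Y n l) (mk L)).Finite := ih.1.image _
    refine ⟨(hfin.union hfin2).subset hsub, ?_⟩
    refine (Set.ncard_le_ncard hsub (hfin.union hfin2)).trans ?_
    refine (Set.ncard_union_le _ _).trans ?_
    have h3 : (Ed (Y n l) (mk [a])).ncard ≤ 1 := by
      rw [Set.ncard_le_one hfin]
      exact fun a ha b hb => hs ha hb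
    have h4 := Set.ncard_image_le (f := fun m => m * (mk [a])⁻¹) ih.1
    simp only [List.length_cons]
    have := ih.2
    omega

theorem Ed_bound (n : FreeGroup B) (l : B × Bool) (g : FreeGroup B) :
    (Ed (Y n l) g).Finite ∧ (Ed (Y n l) g).ncard ≤ norm g := by
  have := Ed_list n l (toWord g)
  rw [mk_toWord] at this
  exact this

theorem Ed_of (n : FreeGroup B) (l : B × Bool) (s : B) (hs : s ≠ l.1) :
    Ed (Y n l) (of s) = ∅ := by
  ext m
  simp only [Set.mem_empty_iff_false, iff_false]
  intro hm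
  have hy1 : toWord (mk [(s, true)]) = [(s, true)] := by rw [toWord_mk]; rfl
  have hy2 : toWord (mk [(s, true)])⁻¹ = [(s, false)] := by
    rw [toWord_inv, hy1]; simp [invRev]
  apply hm
  change m ∈ Y n l ↔ m * mk [(s, true)] ∈ Y n l
  rcases head_mul (n⁻¹ * m) (s, true) with h | h | h
  · simp only [Y, Set.mem_ofPred_eq]
    rw [← mul_assoc, h]
  · simp only [Y, Set.mem_ofPred_eq]
    rw [← mul_assoc, h, one_mul, hy1, toWord_one]
    simp only [List.head?_nil, List.head?_cons, Option.some.injEq, false_iff, reduceCtorEq]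
    intro h5
    exact hs (by rw [← h5])
  · simp only [Y, Set.mem_ofPred_eq]
    rw [← mul_assoc, h, inv_mul_cancel, hy2, toWord_one]
    simp only [List.head?_nil, List.head?_cons, Option.some.injEq, reduceCtorEq, iff_false]
    intro h5
    exact hs (by rw [← h5])

omit [DecidableEq B] in
theorem inv_of_gen (X : Set (FreeGroup B)) (S : Set B) (h : ∀ s ∈ S, Ed X (of s) = ∅) :
    ∀ m, ∀ d ∈ D S, (m * d ∈ X ↔ m ∈ X) := by
  intro m d hd
  revert m
  unfold D at hd
  induction hd using Subgroup.closure_induction with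
  | mem x hx =>
    obtain ⟨s, hs, rfl⟩ := hx
    intro m
    have := h s hs
    have hm : m ∉ Ed X (of s) := by rw [this]; simp
    simp only [Ed, Set.mem_ofPred_eq, not_not] at hm
    exact hm.symm
  | one => intro m; rw [mul_one]
  | mul x y _ _ hx hy => intro m; rw [← mul_assoc, hy, hx]
  | inv x _ hx =>
    intro m
    have := hx (m * x⁻¹)
    rw [inv_mul_cancel_right] at this
    exact this.symm

theorem sep (S : Set B) (k : ℕ) : ∀ (x y : FreeGroup B), norm (x⁻¹ * y) ≤ k → x⁻¹ * y ∉ D S →
    ∃ n l, l.1 ∉ S ∧ x ∈ Y n l ∧ y ∉ Y n l := by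
  induction k with
  | zero =>
    intro x y h1 h2
    exfalso
    apply h2
    have := norm_eq_zero.mp (Nat.le_zero.mp h1)
    rw [this]; exact one_mem _
  | succ k ih =>
    intro x y h1 h2
    -- last letter of `x⁻¹ y`
    rcases List.eq_nil_or_concat (toWord (x⁻¹ * y)) with h | ⟨L, z, h⟩
    · exfalso
      apply h2
      rw [toWord_eq_nil_iff.mp h]; exact one_mem _
    · rw [List.concat_eq_append] at h
      have hw : x⁻¹ * y = mk (L ++ [z]) := by rw [← h, mk_toWord]
      by_cases hz : z.1 ∈ S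
      · have hzD : (mk [z] : FreeGroup B) ∈ D S := by
          have hof : of z.1 ∈ D S := Subgroup.subset_closure ⟨z.1, hz, rfl⟩
          rcases z with ⟨z1, z2⟩
          cases z2
          · have : (mk [(z1, false)] : FreeGroup B) = (of z1)⁻¹ := by
              simp [of, inv_mk, invRev]
            rw [this]; exact inv_mem hof
          · exact hof
        have hyz : x⁻¹ * (y * (mk [z])⁻¹) = mk L := by
          rw [← mul_assoc, hw, ← mul_mk]; group
        have hn : norm (x⁻¹ * (y * (mk [z])⁻¹)) ≤ k := by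
          rw [hyz]
          refine norm_mk_le.trans ?_
          have : norm (x⁻¹ * y) = L.length + 1 := by
            unfold FreeGroup.norm; rw [h]; simp
          omega
        have hnD : x⁻¹ * (y * (mk [z])⁻¹) ∉ D S := by
          intro h3
          apply h2
          have h4 := mul_mem h3 hzD
          have h5 : x⁻¹ * (y * (mk [z])⁻¹) * mk [z] = x⁻¹ * y := by group
          rwa [h5] at h4
        obtain ⟨n, l, hl, hx, hy⟩ := ih x (y * (mk [z])⁻¹) hn hnD
        refine ⟨n, l, hl, hx, fun hy' => hy ?_⟩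
        have := inv_of_gen (Y n l) S (fun s hs => Ed_of n l s (fun hsl => hl (hsl ▸ hs))) y
          (mk [z])⁻¹ (inv_mem hzD)
        exact this.mpr hy'
      · refine ⟨y, (z.1, !z.2), hz, ?_, ?_⟩
        · simp only [Y, Set.mem_ofPred_eq]
          have h3 : y⁻¹ * x = (x⁻¹ * y)⁻¹ := by group
          rw [h3, toWord_inv, h]
          simp [invRev]
        · simp only [Y, Set.mem_ofPred_eq]
          rw [inv_mul_cancel, toWord_one]
          simp

theorem pow_part (m : FreeGroup B) (hm : m ≠ 1) :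
    ∃ n l, (∀ k : ℕ, 1 ≤ k → m ^ k ∈ Y n l) ∧ ∀ k : ℕ, 1 ≤ k → (m⁻¹) ^ k ∉ Y n l := by
  set L := toWord m with hL
  have hLr : IsReduced L := isReduced_toWord
  set u := reduceCyclically.conjugator L with hu
  set c := reduceCyclically L with hc
  have hcc : IsCyclicallyReduced c := reduceCyclically.isCyclicallyReduced hLr
  have hdec : u ++ c ++ invRev u = L := reduceCyclically.conj_conjugator_reduceCyclically L
  have hcne : c ≠ [] := by
    intro h
    apply hm
    have h1 : m = mk L := by rw [hL, mk_toWord]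
    rw [h1, ← hdec, h]
    simp only [List.append_nil]
    rw [← mul_mk, ← inv_mk, mul_inv_cancel]
  obtain ⟨b, t, hbt⟩ := List.exists_cons_of_ne_nil hcne
  have hpow : ∀ k : ℕ, toWord (m ^ (k + 1)) =
      u ++ (List.replicate (k + 1) c).flatten ++ invRev u := by
    intro k
    rw [toWord_pow]
    exact reduceCyclically.reduce_flatten_replicate_succ hLr k
  have hpred : ∀ k : ℕ, IsReduced (u ++ (List.replicate (k + 1) c).flatten ++ invRev u) := by
    intro k; rw [← hpow]; exact isReduced_toWord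
  refine ⟨mk u, b, ?_, ?_⟩
  · intro k hk
    obtain ⟨k, rfl⟩ : ∃ j, k = j + 1 := ⟨k - 1, by omega⟩
    simp only [Y, Set.mem_ofPred_eq]
    have h1 : (mk u)⁻¹ * m ^ (k + 1) = mk ((List.replicate (k + 1) c).flatten ++ invRev u) := by
      have h2 : m ^ (k + 1) = mk (u ++ (List.replicate (k + 1) c).flatten ++ invRev u) := by
        rw [← hpow, mk_toWord]
      rw [h2, List.append_assoc, ← mul_mk, inv_mul_cancel_left]
    have h3 : IsReduced ((List.replicate (k + 1) c).flatten ++ invRev u) :=
      by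
        have h := hpred k
        rw [List.append_assoc] at h
        exact List.IsChain.right_of_append h
    rw [h1, toWord_mk, h3.reduce_eq, List.replicate_succ, List.flatten_cons, hbt]
    simp
  · intro k hk
    obtain ⟨k, rfl⟩ : ∃ j, k = j + 1 := ⟨k - 1, by omega⟩
    simp only [Y, Set.mem_ofPred_eq]
    have h1 : (mk u)⁻¹ * m⁻¹ ^ (k + 1) =
        (mk (u ++ (List.replicate (k + 1) c).flatten))⁻¹ := by
      have h2 : m ^ (k + 1) = mk (u ++ (List.replicate (k + 1) c).flatten ++ invRev u) := by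
        rw [← hpow, mk_toWord]
      rw [inv_pow, h2, ← mul_mk, ← inv_mk]
      group
    have h3 : IsReduced (u ++ (List.replicate (k + 1) c).flatten) :=
      List.IsChain.left_of_append (hpred k)
    rw [h1, toWord_inv, toWord_mk, h3.reduce_eq, List.replicate_succ', List.flatten_concat]
    rw [invRev]
    simp only [List.head?_reverse, List.getLast?_map, ← List.append_assoc]
    rw [List.getLast?_append_of_ne_nil _ hcne]
    intro hcon
    rw [Option.map_eq_some_iff] at hcon
    obtain ⟨a, ha, hab⟩ := hcon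
    have := hcc.2 a ha b (by rw [hbt]; simp) (by rw [← hab])
    rw [← hab] at this
    simp at this

end

theorem halves (B : Type) : ∃ N : FreeGroup B → ℕ,
    (∀ (S : Set B) (x y : FreeGroup B), x⁻¹ * y ∉ D S → ∃ X : Set (FreeGroup B), x ∈ X ∧ y ∉ X ∧
      (∀ m, ∀ d ∈ D S, (m * d ∈ X ↔ m ∈ X)) ∧
      ∀ g, {m | ¬ (m ∈ X ↔ m * g ∈ X)}.Finite ∧ {m | ¬ (m ∈ X ↔ m * g ∈ X)}.ncard ≤ N g) ∧
    (∀ m : FreeGroup B, m ≠ 1 → ∃ X : Set (FreeGroup B), (∃ k₀ : ℕ, ∀ k ≥ k₀, m ^ k ∈ X) ∧
      (∃ k₀ : ℕ, ∀ k ≥ k₀, (m⁻¹) ^ k ∉ X) ∧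
      ∀ g, {m | ¬ (m ∈ X ↔ m * g ∈ X)}.Finite ∧ {m | ¬ (m ∈ X ↔ m * g ∈ X)}.ncard ≤ N g) := by
  classical
  refine ⟨fun g => norm g, ?_, ?_⟩
  · intro S x y hxy
    obtain ⟨n, l, hl, hx, hy⟩ := sep S (norm (x⁻¹ * y)) x y le_rfl hxy
    exact ⟨Y n l, hx, hy,
      inv_of_gen (Y n l) S (fun s hs => Ed_of n l s (fun hsl => hl (hsl ▸ hs))),
      fun g => Ed_bound n l g⟩
  · intro m hm
    obtain ⟨n, l, h1, h2⟩ := pow_part m hm
    exact ⟨Y n l, ⟨1, fun k hk => h1 k hk⟩, ⟨1, fun k hk => h2 k hk⟩, fun g => Ed_bound n l g⟩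

end Pool.Agent.N744.LRV
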